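import Pool.Agent.N3.PN.LBb

/-!
Project PN (helper931), part LB: the lower bound.  Author helper3.
-/

set_option autoImplicit false

namespace Pool.Agent.N3.PN.LB

open H974 H12S H389NS H984N H984P H342P Finset
open Pool.Agent.N116.EW Pool.Agent.N931.PN
open H342L (cdist Curve)

theorem pow_id {a b : ℝ} (ha : 0 < a) (hb : 0 < b) :
    (a * b ^ (-(3 / 4) : ℝ)) ^ (-(2 / 3) : ℝ) = a ^ (-(2 / 3) : ℝ) * b ^ (1 / 2 : ℝ) := by
  rw [Real.mul_rpow ha.le (by positivity), ← Real.rpow_mul hb.le]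
  norm_num

/-- the arithmetic of the small noise case -/
theorem arith {c0 ε : ℝ} (hc0 : 0 < c0) (hε : 0 < ε) (h : ε ≤ c0) :
    ∃ k : ℕ, 1 ≤ k ∧ (k : ℝ) ≤ (c0 / ε) ^ (4 / 3 : ℝ) ∧ ε * (k : ℝ) ^ (3 / 4 : ℝ) ≤ c0 ∧
      c0 ^ (5 / 3 : ℝ) * ε ^ (-(2 / 3) : ℝ) ≤ 4 * (ε * (k : ℝ) ^ (5 / 4 : ℝ)) := by
  have hr : 1 ≤ c0 / ε := by rw [le_div_iff₀ hε]; linarith
  have hr0 : 0 < c0 / ε := by positivity
  have hX1 : 1 ≤ (c0 / ε) ^ (4 / 3 : ℝ) := Real.one_le_rpow hr (by norm_num)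
  have hk : 1 ≤ ⌊(c0 / ε) ^ (4 / 3 : ℝ)⌋₊ := (Nat.one_le_floor_iff _).2 hX1
  have hk1 : (1 : ℝ) ≤ (⌊(c0 / ε) ^ (4 / 3 : ℝ)⌋₊ : ℝ) := by exact_mod_cast hk
  have hfl : (⌊(c0 / ε) ^ (4 / 3 : ℝ)⌋₊ : ℝ) ≤ (c0 / ε) ^ (4 / 3 : ℝ) :=
    Nat.floor_le (by positivity)
  have hlt : (c0 / ε) ^ (4 / 3 : ℝ) < (⌊(c0 / ε) ^ (4 / 3 : ℝ)⌋₊ : ℝ) + 1 := Nat.lt_floor_add_one _
  obtain ⟨k, hkdef⟩ : ∃ k : ℕ, k = ⌊(c0 / ε) ^ (4 / 3 : ℝ)⌋₊ := ⟨_, rfl⟩
  rw [← hkdef] at hk hk1 hfl hlt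
  refine ⟨k, hk, hfl, ?_, ?_⟩
  · have h1 : (k : ℝ) ^ (3 / 4 : ℝ) ≤ ((c0 / ε) ^ (4 / 3 : ℝ)) ^ (3 / 4 : ℝ) :=
      Real.rpow_le_rpow (by positivity) hfl (by norm_num)
    rw [← Real.rpow_mul hr0.le] at h1
    have h2 : (4 / 3 * (3 / 4) : ℝ) = 1 := by norm_num
    rw [h2, Real.rpow_one, le_div_iff₀ hε] at h1
    linarith
  · have h1 : (c0 / ε) ^ (4 / 3 : ℝ) ≤ 2 * (k : ℝ) := by linarith
    have h2 : ((c0 / ε) ^ (4 / 3 : ℝ)) ^ (5 / 4 : ℝ) ≤ (2 * (k : ℝ)) ^ (5 / 4 : ℝ) :=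
      Real.rpow_le_rpow (by positivity) h1 (by norm_num)
    rw [← Real.rpow_mul hr0.le, Real.mul_rpow (by norm_num) (by positivity)] at h2
    have h3 : (4 / 3 * (5 / 4) : ℝ) = 5 / 3 := by norm_num
    rw [h3] at h2
    have h4 : (2 : ℝ) ^ (5 / 4 : ℝ) ≤ 4 := by
      calc (2 : ℝ) ^ (5 / 4 : ℝ) ≤ (2 : ℝ) ^ (2 : ℝ) :=
            Real.rpow_le_rpow_of_exponent_le (by norm_num) (by norm_num)
        _ = 4 := by norm_num
    have h5 : (c0 / ε) ^ (5 / 3 : ℝ) ≤ 4 * (k : ℝ) ^ (5 / 4 : ℝ) :=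
      h2.trans (mul_le_mul_of_nonneg_right h4 (by positivity))
    have h6 : c0 ^ (5 / 3 : ℝ) * ε ^ (-(2 / 3) : ℝ) = ε * (c0 / ε) ^ (5 / 3 : ℝ) := by
      rw [Real.div_rpow hc0.le hε.le]
      have h7 : ε ^ (-(2 / 3) : ℝ) = ε / ε ^ (5 / 3 : ℝ) := by
        have h8 : (-(2 / 3) : ℝ) = 1 - 5 / 3 := by norm_num
        rw [h8, Real.rpow_sub hε, Real.rpow_one]
      rw [h7]
      ring
    rw [h6]
    nlinarith

theorem main : S_FH → S_FST → S_PAR → S_JP → S_DRV → S_TST → S_COV → S_LB := by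
  intro hFH hFST hPAR hJP hDRV hTST hCOV R
  obtain ⟨T, hT⟩ : ∃ T, T = max R.t 0 := ⟨_, rfl⟩
  have hTt : R.t ≤ T := by rw [hT]; exact le_max_left _ _
  have hT0 : 0 ≤ T := by rw [hT]; exact le_max_right _ _
  have hTB : T < R.B := by rw [hT]; exact max_lt R.ht2 R.hB
  obtain ⟨x1, hx1⟩ : ∃ x1, x1 = T + (R.B - T) / 3 := ⟨_, rfl⟩
  obtain ⟨x2, hx2⟩ : ∃ x2, x2 = min (x1 + (R.B - T) / 3) (x1 + 1) := ⟨_, rfl⟩
  have a1 : max R.t 0 < x1 := by rw [← hT, hx1]; linarith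
  have a2 : x1 < x2 := by rw [hx2]; exact lt_min (by linarith) (by linarith)
  have a3 : x2 < R.B := by
    have : x2 ≤ x1 + (R.B - T) / 3 := by rw [hx2]; exact min_le_left _ _
    linarith
  have a4' : x2 ≤ x1 + 1 := by rw [hx2]; exact min_le_right _ _
  have hx1T : T < x1 := by rw [hx1]; linarith
  obtain ⟨f, hLp, δ1, hδ1, hfh⟩ := hFH R x1 x2 a1 a2 a3 a4'
  obtain ⟨c1, θ, δ2, hc1, hθ, hδ2, hfst⟩ := hFST R x1 x2 a1 a2 a3
  obtain ⟨κ, Sz, δ3, hκ, hSz, hδ3, hδ31, hshape⟩ := R.shape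
  obtain ⟨C4, hC4, ha4⟩ := Pool.Agent.H988R6.a4_up
  obtain ⟨Cj, δ4, hCj, hδ4, hjp⟩ := hJP R x1 x2 θ a1 a2 a3 hθ
  obtain ⟨cD, hcD, hdrv⟩ := hDRV
  -- constants
  obtain ⟨Cq, hCq⟩ : ∃ Cq, Cq = 8 * Sz ^ 2 := ⟨_, rfl⟩
  have hCq0 : 0 < Cq := by rw [hCq]; positivity
  obtain ⟨c0, hc0def⟩ : ∃ c0, c0 = min (min 1 ((θ / 16) ^ (3 / 4 : ℝ))) (c1 / (456 * Cq * Cj)) :=
    ⟨_, rfl⟩
  have hc0 : 0 < c0 := by
    rw [hc0def]
    exact lt_min (lt_min one_pos (by positivity)) (by positivity)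
  have hc0a : c0 ≤ (θ / 16) ^ (3 / 4 : ℝ) := by
    rw [hc0def]; exact (min_le_left _ _).trans (min_le_right _ _)
  have hc0b : c0 * (456 * Cq * Cj) ≤ c1 := by
    have h : c0 ≤ c1 / (456 * Cq * Cj) := by rw [hc0def]; exact min_le_right _ _
    rwa [le_div_iff₀ (by positivity)] at h
  obtain ⟨A1, hA1⟩ : ∃ A1, A1 = cD * (c1 ^ 2 / (4 * Cq) / C4) * (c0 ^ (5 / 3 : ℝ) / 4) := ⟨_, rfl⟩
  obtain ⟨A2, hA2⟩ : ∃ A2, A2 = cD * c0 * (c1 ^ 2 / Cq) * c0 ^ (2 / 3 : ℝ) := ⟨_, rfl⟩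
  have hA10 : 0 < A1 := by rw [hA1]; positivity
  have hA20 : 0 < A2 := by rw [hA2]; positivity
  obtain ⟨A, hA⟩ : ∃ A, A = min A1 A2 := ⟨_, rfl⟩
  have hA0 : 0 < A := by rw [hA]; exact lt_min hA10 hA20
  have hAA1 : A ≤ A1 := by rw [hA]; exact min_le_left _ _
  have hAA2 : A ≤ A2 := by rw [hA]; exact min_le_right _ _
  refine ⟨f, hLp, A / 4, min (min (min δ1 δ2) (min δ3 δ4)) (min (min Sz (θ / 8)) (A / 64)),
    by positivity, lt_min (lt_min (lt_min hδ1 hδ2) (lt_min hδ3 hδ4))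
      (lt_min (lt_min hSz (by positivity)) (by positivity)), ?_⟩
  intro δ ε hδ hδ0 hε hε2 hL
  have d1 : δ ≤ δ1 := hδ0.trans ((min_le_left _ _).trans ((min_le_left _ _).trans (min_le_left _ _)))
  have d2 : δ ≤ δ2 := hδ0.trans ((min_le_left _ _).trans ((min_le_left _ _).trans (min_le_right _ _)))
  have d3 : δ ≤ δ3 := hδ0.trans ((min_le_left _ _).trans ((min_le_right _ _).trans (min_le_left _ _)))
  have d4 : δ ≤ δ4 := hδ0.trans ((min_le_left _ _).trans ((min_le_right _ _).trans (min_le_right _ _)))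
  have d5 : δ ≤ Sz := hδ0.trans ((min_le_right _ _).trans ((min_le_left _ _).trans (min_le_left _ _)))
  have d6 : δ ≤ θ / 8 :=
    hδ0.trans ((min_le_right _ _).trans ((min_le_left _ _).trans (min_le_right _ _)))
  have d7 : δ ≤ A / 64 := hδ0.trans ((min_le_right _ _).trans (min_le_right _ _))
  have d8 : δ ≤ 1 := d3.trans hδ31
  obtain ⟨D, hDdef⟩ : ∃ D, D = R.dm δ := ⟨_, rfl⟩
  have hsh : D.Shape κ (Sz / δ) := by rw [hDdef]; exact hshape δ hδ d3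
  have hD : D.Ok := hsh.ok
  have hn1 : 1 ≤ Sz / δ := by rw [le_div_iff₀ hδ]; linarith
  have hcard : (D.edges.card : ℝ) ≤ Cq * δ ^ (-(2 : ℝ)) := by
    refine (Pool.Agent.N116.EW.card_edges hn1 hsh).trans (le_of_eq ?_)
    rw [hCq, Real.rpow_neg hδ.le, Real.rpow_two, div_pow]
    field_simp
  obtain ⟨m1, hm1⟩ : ∃ m1 : ℤ, m1 = ⌊x1 / δ⌋ := ⟨_, rfl⟩
  obtain ⟨m2, hm2⟩ : ∃ m2 : ℤ, m2 = ⌊x2 / δ⌋ := ⟨_, rfl⟩
  have hm1t : max D.t 0 ≤ m1 := by
    rw [hm1, hDdef]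
    refine max_le ?_ ?_
    · show ⌊R.t / δ⌋ ≤ ⌊x1 / δ⌋
      exact Int.floor_le_floor (div_le_div_of_nonneg_right (by linarith) hδ.le)
    · exact Int.floor_nonneg.2 (div_nonneg (by linarith) hδ.le)
  have hm2r : m2 ≤ D.r := by
    rw [hm2, hDdef]
    show ⌊x2 / δ⌋ ≤ ⌈R.B / δ⌉ - 1
    have h1 : (⌊x2 / δ⌋ : ℝ) < (⌈R.B / δ⌉ : ℝ) := by
      calc (⌊x2 / δ⌋ : ℝ) ≤ x2 / δ := Int.floor_le _
        _ < R.B / δ := div_lt_div_of_pos_right a3 hδ
        _ ≤ _ := Int.le_ceil _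
    have h2 : ⌊x2 / δ⌋ < ⌈R.B / δ⌉ := by exact_mod_cast h1
    omega
  -- the spectral weight of `hK`
  have hfst' := hfst δ hδ d2
  rw [← hDdef, ← hm1, ← hm2] at hfst'
  obtain ⟨Q, hQS, hQ, hQsum⟩ := hfst'
  have hjp' := hjp δ hδ d4
  rw [← hDdef, ← hm1, ← hm2] at hjp'
  have hfh' := hfh δ hδ d1
  rw [← hDdef, ← hm1, ← hm2] at hfh'
  rw [← hDdef]
  have hQcard : (Q.card : ℝ) ≤ Cq * δ ^ (-(2 : ℝ)) := by
    refine le_trans ?_ hcard
    exact_mod_cast Finset.card_le_card hQS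
  have hN0 : 0 < Cq * δ ^ (-(2 : ℝ)) := by positivity
  have hgnn : ∀ e : Edg, 0 ≤ Ex hp D.edges (dif e (hK D δ m1 m2)) := fun e =>
    Ex_nonneg okhp fun F _ => dif_hK_nonneg D hδ.le m1 m2 e F
  have hsumQ : ∑ e ∈ Q, E2 (fun _ => 1 - 2 * ε) D.edges
      (fun F F' => dif e (hK D δ m1 m2) F * dif e (hK D δ m1 m2) F') ≤
      ∑ e ∈ D.edges, E2 (fun _ => 1 - 2 * ε) D.edges
      (fun F F' => dif e (hK D δ m1 m2) F * dif e (hK D δ m1 m2) F') :=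
    Finset.sum_le_sum_of_subset_of_nonneg hQS fun e _ _ =>
      E2_nonneg hCOV D.edges _ (by linarith) (by linarith)
  have hWK := hdrv D.edges (hK D δ m1 m2) ε hε hε2
  have hscale : ∀ s : ℝ, (s * δ ^ (-(3 / 4) : ℝ)) ^ 2 / (Cq * δ ^ (-(2 : ℝ))) =
      s ^ 2 / Cq * δ ^ (1 / 2 : ℝ) := by
    intro s
    have h1 : (δ ^ (-(3 / 4) : ℝ)) ^ 2 = δ ^ (-(2 : ℝ)) * δ ^ (1 / 2 : ℝ) := by
      rw [← Real.rpow_natCast, ← Real.rpow_mul hδ.le, ← Real.rpow_add hδ]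
      norm_num
    rw [mul_pow, h1]
    have h2 : 0 < δ ^ (-(2 : ℝ)) := by positivity
    field_simp
  have key : A * (ε ^ (-(2 / 3) : ℝ) * δ ^ (1 / 2 : ℝ)) ≤ WT D.edges (hK D δ m1 m2) (1 - ε) := by
    rcases le_or_gt ε c0 with hεc | hεc
    · -- small noise
      obtain ⟨k, hk, hk1, hk2, hk3⟩ := arith hc0 hε hεc
      have hk0 : (0 : ℝ) < k := by
        have : 0 < k := by omega
        exact_mod_cast this
      have hkθ : (k : ℝ) ≤ θ / (16 * δ) := by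
        have h1 : c0 / ε ≤ (θ / (16 * δ)) ^ (3 / 4 : ℝ) := by
          rw [div_le_iff₀ hε]
          calc c0 ≤ (θ / 16) ^ (3 / 4 : ℝ) * 1 := by rw [mul_one]; exact hc0a
            _ ≤ (θ / 16) ^ (3 / 4 : ℝ) * (ε * δ ^ (-(3 / 4) : ℝ)) :=
                mul_le_mul_of_nonneg_left hL (by positivity)
            _ = (θ / (16 * δ)) ^ (3 / 4 : ℝ) * ε := by
                rw [show θ / (16 * δ) = (θ / 16) * δ⁻¹ by field_simp,
                  Real.mul_rpow (by positivity) (by positivity), Real.inv_rpow hδ.le,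
                  Real.rpow_neg hδ.le]
                ring
        have h2 : (c0 / ε) ^ (4 / 3 : ℝ) ≤ ((θ / (16 * δ)) ^ (3 / 4 : ℝ)) ^ (4 / 3 : ℝ) :=
          Real.rpow_le_rpow (by positivity) h1 (by norm_num)
        rw [← Real.rpow_mul (by positivity)] at h2
        have h3 : (3 / 4 * (4 / 3) : ℝ) = 1 := by norm_num
        rw [h3, Real.rpow_one] at h2
        exact hk1.trans h2
      have h8 : (8 : ℝ) ≤ θ / δ := by
        rw [le_div_iff₀ hδ]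
        linarith
      have hk4 : (k : ℝ) + 4 ≤ θ / δ := by
        have : θ / (16 * δ) = (θ / δ) / 16 := by field_simp
        rw [this] at hkθ
        linarith
      have hk5 : (k : ℝ) ≤ θ / (8 * δ) := by
        refine hkθ.trans ?_
        exact div_le_div_of_nonneg_left hθ.le (by positivity) (by linarith)
      obtain ⟨η, hη⟩ : ∃ η, η = 2 * c0 * (Cj * δ ^ (5 / 4 : ℝ) * 114) := ⟨_, rfl⟩
      have hη0 : 0 ≤ η := by rw [hη]; positivity
      have hper : ∀ e ∈ Q, (max 0 (Ex hp D.edges (dif e (hK D δ m1 m2)) - η)) ^ 2 /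
          (C4 * (k:ℝ) ^ (-(5/4) : ℝ)) ≤ E2 (fun _ => 1 - 2 * ε) D.edges
            (fun F F' => dif e (hK D δ m1 m2) F * dif e (hK D δ m1 m2) F') := by
        intro e he
        obtain ⟨q1, q2, q3⟩ := hQ e he
        refine per_edge hPAR hTST hCOV hC4 ha4 D hD hε hε2 m1 m2 hm1t hm2r e (hQS he) hk ?_ ?_ ?_
        · have h1 : (k : ℝ) + 4 ≤ (D.bd (src e) : ℝ) := hk4.trans q1
          exact_mod_cast h1
        · have h1 : ((src e).1 : ℝ) + k + 4 ≤ x1 / δ := by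
            have : (x1 - θ) / δ = x1 / δ - θ / δ := by rw [sub_div]
            linarith
          have h2 : x1 / δ < (m1 : ℝ) + 1 := by rw [hm1]; exact Int.lt_floor_add_one _
          have h3 : ((src e).1 : ℝ) + k + 4 < (m1 : ℝ) + 1 := by linarith
          have h4 : (src e).1 + k + 4 < m1 + 1 := by exact_mod_cast h3
          exact h4.le
        · have h1 : ∑ e' ∈ ebx e k, Ex hp D.edges (fun F => |dif e' (dif e (hK D δ m1 m2)) F|) ≤
              ∑ e' ∈ ebx e k, Cj * δ ^ (5 / 4 : ℝ) *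
                ((sd (src e') (src e) : ℝ) + 1) ^ (-(5 / 4) : ℝ) := by
            refine Finset.sum_le_sum fun e' he' => ?_
            by_cases hee : e' = e
            · subst hee
              have h2 : Ex hp D.edges (fun F => |dif e' (dif e' (hK D δ m1 m2)) F|) = 0 := by
                have h3 : (fun F => |dif e' (dif e' (hK D δ m1 m2)) F|) = fun _ => (0 : ℝ) := by
                  funext F
                  rw [dif_dif, abs_zero]
                rw [h3, Ex_const]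
              rw [h2]
              have h4 : (0 : ℝ) ≤ (sd (src e') (src e') : ℝ) := by
                have : 0 ≤ sd (src e') (src e') := le_max_of_le_left (abs_nonneg _)
                exact_mod_cast this
              positivity
            · refine hjp' e e' (hQS he) q1 q3 hee ?_
              have h2 : (sd (src e') (src e) : ℝ) ≤ k := by exact_mod_cast sd_ebx he'
              exact h2.trans hk5
          rw [← Finset.mul_sum] at h1
          have h5 := sum_box e hk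
          have h6 : ∑ e' ∈ ebx e k, Ex hp D.edges
              (fun F => |dif e' (dif e (hK D δ m1 m2)) F|) ≤
              Cj * δ ^ (5 / 4 : ℝ) * (114 * (k : ℝ) ^ (3 / 4 : ℝ)) :=
            h1.trans (mul_le_mul_of_nonneg_left h5 (by positivity))
          calc _ ≤ 2 * ε * (Cj * δ ^ (5 / 4 : ℝ) * (114 * (k : ℝ) ^ (3 / 4 : ℝ))) :=
                mul_le_mul_of_nonneg_left h6 (by positivity)
            _ = 2 * (ε * (k : ℝ) ^ (3 / 4 : ℝ)) * (Cj * δ ^ (5 / 4 : ℝ) * 114) := by ring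
            _ ≤ 2 * c0 * (Cj * δ ^ (5 / 4 : ℝ) * 114) :=
                mul_le_mul_of_nonneg_right (by linarith) (by positivity)
            _ = η := hη.symm
      have hδid : δ ^ (-(2 : ℝ)) * δ ^ (5 / 4 : ℝ) = δ ^ (-(3 / 4) : ℝ) := by
        rw [← Real.rpow_add hδ]
        norm_num
      have hb : (c1 / 2) * δ ^ (-(3 / 4) : ℝ) ≤
          ∑ e ∈ Q, max 0 (Ex hp D.edges (dif e (hK D δ m1 m2)) - η) := by
        have h1 : ∑ e ∈ Q, (Ex hp D.edges (dif e (hK D δ m1 m2)) - η) ≤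
            ∑ e ∈ Q, max 0 (Ex hp D.edges (dif e (hK D δ m1 m2)) - η) :=
          Finset.sum_le_sum fun e _ => le_max_right _ _
        rw [Finset.sum_sub_distrib, Finset.sum_const, nsmul_eq_mul] at h1
        have h2 : (Q.card : ℝ) * η ≤ (c1 / 2) * δ ^ (-(3 / 4) : ℝ) := by
          calc (Q.card : ℝ) * η ≤ Cq * δ ^ (-(2 : ℝ)) * η := mul_le_mul_of_nonneg_right hQcard hη0
            _ = (c0 * (456 * Cq * Cj)) / 2 * (δ ^ (-(2 : ℝ)) * δ ^ (5 / 4 : ℝ)) := by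
                rw [hη]; ring
            _ ≤ _ := by
                rw [hδid]
                exact mul_le_mul_of_nonneg_right (by linarith) (by positivity)
        linarith
      have hcs := cs Q (fun e => max 0 (Ex hp D.edges (dif e (hK D δ m1 m2)) - η))
        (by positivity) hb hQcard hN0
      rw [hscale] at hcs
      have hP : 0 < C4 * (k:ℝ) ^ (-(5/4) : ℝ) := by positivity
      have hsum : (c1 / 2) ^ 2 / Cq * δ ^ (1 / 2 : ℝ) / (C4 * (k:ℝ) ^ (-(5/4) : ℝ)) ≤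
          ∑ e ∈ Q, E2 (fun _ => 1 - 2 * ε) D.edges
            (fun F F' => dif e (hK D δ m1 m2) F * dif e (hK D δ m1 m2) F') := by
        refine le_trans (div_le_div_of_nonneg_right hcs hP.le) ?_
        rw [Finset.sum_div]
        exact Finset.sum_le_sum hper
      have hkinv : (c1 / 2) ^ 2 / Cq * δ ^ (1 / 2 : ℝ) / (C4 * (k:ℝ) ^ (-(5/4) : ℝ)) =
          c1 ^ 2 / (4 * Cq) / C4 * (δ ^ (1 / 2 : ℝ) * (k:ℝ) ^ (5/4 : ℝ)) := by
        rw [Real.rpow_neg hk0.le]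
        field_simp
        ring
      rw [hkinv] at hsum
      calc A * (ε ^ (-(2 / 3) : ℝ) * δ ^ (1 / 2 : ℝ)) ≤
            A1 * (ε ^ (-(2 / 3) : ℝ) * δ ^ (1 / 2 : ℝ)) :=
            mul_le_mul_of_nonneg_right hAA1 (by positivity)
        _ = cD * (c1 ^ 2 / (4 * Cq) / C4) * δ ^ (1 / 2 : ℝ) *
              ((c0 ^ (5 / 3 : ℝ) * ε ^ (-(2 / 3) : ℝ)) / 4) := by rw [hA1]; ring
        _ ≤ cD * (c1 ^ 2 / (4 * Cq) / C4) * δ ^ (1 / 2 : ℝ) * (ε * (k : ℝ) ^ (5 / 4 : ℝ)) :=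
            mul_le_mul_of_nonneg_left (by linarith) (by positivity)
        _ = cD * ε * (c1 ^ 2 / (4 * Cq) / C4 * (δ ^ (1 / 2 : ℝ) * (k:ℝ) ^ (5/4 : ℝ))) := by ring
        _ ≤ cD * ε * ∑ e ∈ Q, E2 (fun _ => 1 - 2 * ε) D.edges
            (fun F F' => dif e (hK D δ m1 m2) F * dif e (hK D δ m1 m2) F') :=
            mul_le_mul_of_nonneg_left hsum (by positivity)
        _ ≤ cD * ε * ∑ e ∈ D.edges, E2 (fun _ => 1 - 2 * ε) D.edges
            (fun F F' => dif e (hK D δ m1 m2) F * dif e (hK D δ m1 m2) F') :=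
            mul_le_mul_of_nonneg_left hsumQ (by positivity)
        _ ≤ _ := hWK
    · -- large noise
      have hcs := cs Q (fun e => Ex hp D.edges (dif e (hK D δ m1 m2)))
        (by positivity) hQsum hQcard hN0
      rw [hscale] at hcs
      have hsum : c1 ^ 2 / Cq * δ ^ (1 / 2 : ℝ) ≤
          ∑ e ∈ Q, E2 (fun _ => 1 - 2 * ε) D.edges
            (fun F F' => dif e (hK D δ m1 m2) F * dif e (hK D δ m1 m2) F') := by
        refine hcs.trans (Finset.sum_le_sum fun e _ => ?_)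
        have h1 := (hCOV D.edges (dif e (hK D δ m1 m2)) (dif e (hK D δ m1 m2)) (1 - 2 * ε)
          (by linarith) (by linarith)).2.1
        have h2 : 0 ≤ WT D.edges (dif e (hK D δ m1 m2)) (1 - 2 * ε) := by
          unfold WT
          exact Finset.sum_nonneg fun T _ => mul_nonneg (sq_nonneg _)
            (pow_nonneg (by linarith) _)
        linarith
      have hεp : ε ^ (-(2 / 3) : ℝ) * c0 ^ (2 / 3 : ℝ) ≤ 1 := by
        calc ε ^ (-(2 / 3) : ℝ) * c0 ^ (2 / 3 : ℝ) ≤ c0 ^ (-(2 / 3) : ℝ) * c0 ^ (2 / 3 : ℝ) :=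
              mul_le_mul_of_nonneg_right
                (Real.rpow_le_rpow_of_nonpos hc0 hεc.le (by norm_num)) (by positivity)
          _ = 1 := by
              rw [← Real.rpow_add hc0]
              norm_num
      calc A * (ε ^ (-(2 / 3) : ℝ) * δ ^ (1 / 2 : ℝ)) ≤
            A2 * (ε ^ (-(2 / 3) : ℝ) * δ ^ (1 / 2 : ℝ)) :=
            mul_le_mul_of_nonneg_right hAA2 (by positivity)
        _ = cD * c0 * (c1 ^ 2 / Cq) * δ ^ (1 / 2 : ℝ) *
              (ε ^ (-(2 / 3) : ℝ) * c0 ^ (2 / 3 : ℝ)) := by rw [hA2]; ring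
        _ ≤ cD * c0 * (c1 ^ 2 / Cq) * δ ^ (1 / 2 : ℝ) * 1 :=
            mul_le_mul_of_nonneg_left hεp (by positivity)
        _ = cD * c0 * (c1 ^ 2 / Cq * δ ^ (1 / 2 : ℝ)) := by ring
        _ ≤ cD * ε * (c1 ^ 2 / Cq * δ ^ (1 / 2 : ℝ)) :=
            mul_le_mul_of_nonneg_right (mul_le_mul_of_nonneg_left hεc.le hcD.le) (by positivity)
        _ ≤ cD * ε * ∑ e ∈ Q, E2 (fun _ => 1 - 2 * ε) D.edges
            (fun F F' => dif e (hK D δ m1 m2) F * dif e (hK D δ m1 m2) F') :=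
            mul_le_mul_of_nonneg_left hsum (by positivity)
        _ ≤ cD * ε * ∑ e ∈ D.edges, E2 (fun _ => 1 - 2 * ε) D.edges
            (fun F F' => dif e (hK D δ m1 m2) F * dif e (hK D δ m1 m2) F') :=
            mul_le_mul_of_nonneg_left hsumQ (by positivity)
        _ ≤ _ := hWK
  -- comparison with the function of the path
  have hx0 : 0 ≤ 1 - ε := by linarith
  have hx1' : 1 - ε ≤ 1 := by linarith
  have hW1 := WT_two D.edges (Pool.Agent.N931.PN.hf R δ f) (hK D δ m1 m2) hx0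
  have hW2 := WT_small hCOV D.edges (fun F => hf R δ f F - hK D δ m1 m2 F) hx0 hx1'
    (M := 4 * δ) (by positivity) hfh'
  rw [pow_id hε hδ]
  have hΛ : δ ≤ ε ^ (-(2 / 3) : ℝ) * δ ^ (1 / 2 : ℝ) := by
    have h1 : 1 ≤ ε ^ (-(2 / 3) : ℝ) :=
      Real.one_le_rpow_of_pos_of_le_one_of_nonpos hε (by linarith) (by norm_num)
    have h2 : δ ≤ δ ^ (1 / 2 : ℝ) := by
      calc δ = δ ^ (1 : ℝ) := (Real.rpow_one δ).symm
        _ ≤ δ ^ (1 / 2 : ℝ) := Real.rpow_le_rpow_of_exponent_ge hδ d8 (by norm_num)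
    calc δ ≤ 1 * δ ^ (1 / 2 : ℝ) := by rw [one_mul]; exact h2
      _ ≤ _ := mul_le_mul_of_nonneg_right h1 (by positivity)
  have hsm : (4 * δ) ^ 2 ≤ (A / 4) * (ε ^ (-(2 / 3) : ℝ) * δ ^ (1 / 2 : ℝ)) := by
    calc (4 * δ) ^ 2 = (16 * δ) * δ := by ring
      _ ≤ (A / 4) * δ := mul_le_mul_of_nonneg_right (by linarith) hδ.le
      _ ≤ _ := mul_le_mul_of_nonneg_left hΛ (by positivity)
  linarith

end Pool.Agent.N3.PN.LB
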