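import Pool.Agent.N931.PN.Stm5
import Pool.Agent.N116.EW.PartA

/-!
Project PN (helper931), part LB, first part: sums over boxes and the spectral weight as a
seminorm.  Author helper3.
-/

set_option autoImplicit false

namespace Pool.Agent.N3.PN.LB

open H974 H12S H389NS H984N H984P H342P Finset
open Pool.Agent.N116.EW Pool.Agent.N931.PN

theorem sum_rpow (N : ℕ) :
    ∑ j ∈ range N, ((j : ℝ) + 1) ^ (-(5 / 8) : ℝ) ≤ (8 / 3) * (N : ℝ) ^ (3 / 8 : ℝ) := by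
  induction N with
  | zero =>
    rw [Finset.sum_range_zero, Nat.cast_zero, Real.zero_rpow (by norm_num), mul_zero]
  | succ N ih =>
    rw [Finset.sum_range_succ]
    have hN : (0 : ℝ) < (N : ℝ) + 1 := by positivity
    have h1 : (N : ℝ) = ((N : ℝ) + 1) * (1 + -(1 / ((N : ℝ) + 1))) := by
      field_simp
      ring
    have h2 : (1 + -(1 / ((N : ℝ) + 1))) ^ (3 / 8 : ℝ) ≤ 1 + (3 / 8) * -(1 / ((N : ℝ) + 1)) := by
      refine rpow_one_add_le_one_add_mul_self ?_ (by norm_num) (by norm_num)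
      have : 1 / ((N : ℝ) + 1) ≤ 1 := by
        rw [div_le_one hN]
        have : (0 : ℝ) ≤ N := Nat.cast_nonneg N
        linarith
      linarith
    have h3 : (N : ℝ) ^ (3 / 8 : ℝ) ≤
        ((N : ℝ) + 1) ^ (3 / 8 : ℝ) * (1 + (3 / 8) * -(1 / ((N : ℝ) + 1))) := by
      calc (N : ℝ) ^ (3 / 8 : ℝ) = (((N : ℝ) + 1) * (1 + -(1 / ((N : ℝ) + 1)))) ^ (3 / 8 : ℝ) := by
            rw [← h1]
        _ = ((N : ℝ) + 1) ^ (3 / 8 : ℝ) * (1 + -(1 / ((N : ℝ) + 1))) ^ (3 / 8 : ℝ) := by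
            refine Real.mul_rpow hN.le ?_
            have : 1 / ((N : ℝ) + 1) ≤ 1 := by
              rw [div_le_one hN]
              have : (0 : ℝ) ≤ N := Nat.cast_nonneg N
              linarith
            linarith
        _ ≤ _ := mul_le_mul_of_nonneg_left h2 (by positivity)
    have h4 : ((N : ℝ) + 1) ^ (-(5 / 8) : ℝ) = ((N : ℝ) + 1) ^ (3 / 8 : ℝ) * (1 / ((N : ℝ) + 1)) := by
      have h5 : (-(5 / 8) : ℝ) = 3 / 8 - 1 := by norm_num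
      rw [h5, Real.rpow_sub_one hN.ne']
      ring
    have h6 : ((N + 1 : ℕ) : ℝ) = (N : ℝ) + 1 := by push_cast; ring
    rw [h4, h6]
    nlinarith [ih, h3]

theorem sum_Icc (a : ℤ) (k : ℕ) :
    ∑ x ∈ Finset.Icc (a - k) (a + k), ((|x - a| : ℤ) + 1 : ℝ) ^ (-(5 / 8) : ℝ) ≤
      (16 / 3) * ((k : ℝ) + 1) ^ (3 / 8 : ℝ) := by
  have hsub : Finset.Icc (a - k) (a + k) ⊆
      (range (k + 1)).image (fun j : ℕ => a + (j : ℤ)) ∪
        (range (k + 1)).image (fun j : ℕ => a - (j : ℤ)) := by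
    intro x hx
    rw [Finset.mem_Icc] at hx
    rw [Finset.mem_union, Finset.mem_image, Finset.mem_image]
    rcases le_total a x with h | h
    · left
      exact ⟨(x - a).toNat, Finset.mem_range.2 (by omega), by omega⟩
    · right
      exact ⟨(a - x).toNat, Finset.mem_range.2 (by omega), by omega⟩
  have hnn : ∀ x : ℤ, 0 ≤ ((|x - a| : ℤ) + 1 : ℝ) ^ (-(5 / 8) : ℝ) := by
    intro x
    have : (0 : ℝ) ≤ (|x - a| : ℤ) := by exact_mod_cast abs_nonneg _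
    positivity
  have h1 : ∑ x ∈ (range (k + 1)).image (fun j : ℕ => a + (j : ℤ)),
      ((|x - a| : ℤ) + 1 : ℝ) ^ (-(5 / 8) : ℝ) =
      ∑ j ∈ range (k + 1), ((j : ℝ) + 1) ^ (-(5 / 8) : ℝ) := by
    rw [Finset.sum_image (by intro i _ j _ h; simpa using h)]
    refine Finset.sum_congr rfl fun j _ => ?_
    congr 2
    have : |a + (j : ℤ) - a| = (j : ℤ) := by
      rw [add_sub_cancel_left]; exact abs_of_nonneg (by positivity)
    rw [this]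
    push_cast
    rfl
  have h2 : ∑ x ∈ (range (k + 1)).image (fun j : ℕ => a - (j : ℤ)),
      ((|x - a| : ℤ) + 1 : ℝ) ^ (-(5 / 8) : ℝ) =
      ∑ j ∈ range (k + 1), ((j : ℝ) + 1) ^ (-(5 / 8) : ℝ) := by
    rw [Finset.sum_image (by intro i _ j _ h; simpa using h)]
    refine Finset.sum_congr rfl fun j _ => ?_
    congr 2
    have : |a - (j : ℤ) - a| = (j : ℤ) := by
      rw [show a - (j : ℤ) - a = -(j : ℤ) by ring, abs_neg]; exact abs_of_nonneg (by positivity)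
    rw [this]
    push_cast
    rfl
  have h3 := sum_rpow (k + 1)
  have h4 : ((k + 1 : ℕ) : ℝ) = (k : ℝ) + 1 := by push_cast; ring
  rw [h4] at h3
  calc _ ≤ ∑ x ∈ (range (k + 1)).image (fun j : ℕ => a + (j : ℤ)) ∪
        (range (k + 1)).image (fun j : ℕ => a - (j : ℤ)),
        ((|x - a| : ℤ) + 1 : ℝ) ^ (-(5 / 8) : ℝ) :=
        Finset.sum_le_sum_of_subset_of_nonneg hsub fun x _ _ => hnn x
    _ ≤ ∑ x ∈ (range (k + 1)).image (fun j : ℕ => a + (j : ℤ)),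
          ((|x - a| : ℤ) + 1 : ℝ) ^ (-(5 / 8) : ℝ) +
        ∑ x ∈ (range (k + 1)).image (fun j : ℕ => a - (j : ℤ)),
          ((|x - a| : ℤ) + 1 : ℝ) ^ (-(5 / 8) : ℝ) := by
        rw [← Finset.sum_union_inter]
        have : 0 ≤ ∑ x ∈ (range (k + 1)).image (fun j : ℕ => a + (j : ℤ)) ∩
          (range (k + 1)).image (fun j : ℕ => a - (j : ℤ)),
          ((|x - a| : ℤ) + 1 : ℝ) ^ (-(5 / 8) : ℝ) := Finset.sum_nonneg fun x _ => hnn x
        linarith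
    _ ≤ _ := by
        rw [h1, h2]
        linarith

/-- The sum over a box. -/
theorem sum_box (e : Edg) {k : ℕ} (hk : 1 ≤ k) :
    ∑ e' ∈ ebx e k, ((sd (src e') (src e) : ℝ) + 1) ^ (-(5 / 4) : ℝ) ≤
      114 * (k : ℝ) ^ (3 / 4 : ℝ) := by
  obtain ⟨a, c, b0⟩ := e
  have hpt : ∀ x y : ℤ, ((max |x - a| |y - c| : ℤ) + 1 : ℝ) ^ (-(5 / 4) : ℝ) ≤
      ((|x - a| : ℤ) + 1 : ℝ) ^ (-(5 / 8) : ℝ) * ((|y - c| : ℤ) + 1 : ℝ) ^ (-(5 / 8) : ℝ) := by
    intro x y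
    have p1 : (0 : ℝ) ≤ (|x - a| : ℤ) := by exact_mod_cast abs_nonneg _
    have p2 : (0 : ℝ) ≤ (|y - c| : ℤ) := by exact_mod_cast abs_nonneg _
    have p3 : ((|x - a| : ℤ) : ℝ) ≤ (max |x - a| |y - c| : ℤ) := by exact_mod_cast le_max_left _ _
    have p4 : ((|y - c| : ℤ) : ℝ) ≤ (max |x - a| |y - c| : ℤ) := by exact_mod_cast le_max_right _ _
    have p5 : (0 : ℝ) < ((max |x - a| |y - c| : ℤ) + 1 : ℝ) := by linarith
    have e1 : ((max |x - a| |y - c| : ℤ) + 1 : ℝ) ^ (-(5 / 4) : ℝ) =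
        ((max |x - a| |y - c| : ℤ) + 1 : ℝ) ^ (-(5 / 8) : ℝ) *
          ((max |x - a| |y - c| : ℤ) + 1 : ℝ) ^ (-(5 / 8) : ℝ) := by
      rw [← Real.rpow_add p5]
      norm_num
    rw [e1]
    refine mul_le_mul ?_ ?_ (by positivity) (by positivity)
    · exact Real.rpow_le_rpow_of_nonpos (by linarith) (by linarith) (by norm_num)
    · exact Real.rpow_le_rpow_of_nonpos (by linarith) (by linarith) (by norm_num)
  have hnn : ∀ x : ℤ, ∀ a : ℤ, 0 ≤ ((|x - a| : ℤ) + 1 : ℝ) ^ (-(5 / 8) : ℝ) := by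
    intro x a
    have : (0 : ℝ) ≤ (|x - a| : ℤ) := by exact_mod_cast abs_nonneg _
    positivity
  have h1 : ∑ e' ∈ ebx (a, c, b0) k, ((sd (src e') (src (a, c, b0)) : ℝ) + 1) ^ (-(5 / 4) : ℝ) ≤
      ∑ e' ∈ Finset.Icc (a - k) (a + k) ×ˢ (Finset.Icc (c - k) (c + k) ×ˢ
        (Finset.univ : Finset Bool)),
        ((|e'.1 - a| : ℤ) + 1 : ℝ) ^ (-(5 / 8) : ℝ) *
          ((|e'.2.1 - c| : ℤ) + 1 : ℝ) ^ (-(5 / 8) : ℝ) := by
    refine (Finset.sum_le_sum (g := fun e' : Edg => ((|e'.1 - a| : ℤ) + 1 : ℝ) ^ (-(5 / 8) : ℝ) *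
          ((|e'.2.1 - c| : ℤ) + 1 : ℝ) ^ (-(5 / 8) : ℝ)) fun e' _ => hpt e'.1 e'.2.1).trans ?_
    refine Finset.sum_le_sum_of_subset_of_nonneg ?_ fun e' _ _ => mul_nonneg (hnn _ _) (hnn _ _)
    unfold ebx RE
    exact Finset.filter_subset _ _
  have h2 : ∑ e' ∈ Finset.Icc (a - k) (a + k) ×ˢ (Finset.Icc (c - k) (c + k) ×ˢ
        (Finset.univ : Finset Bool)),
        ((|e'.1 - a| : ℤ) + 1 : ℝ) ^ (-(5 / 8) : ℝ) *
          ((|e'.2.1 - c| : ℤ) + 1 : ℝ) ^ (-(5 / 8) : ℝ) =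
      2 * ((∑ x ∈ Finset.Icc (a - k) (a + k), ((|x - a| : ℤ) + 1 : ℝ) ^ (-(5 / 8) : ℝ)) *
        ∑ y ∈ Finset.Icc (c - k) (c + k), ((|y - c| : ℤ) + 1 : ℝ) ^ (-(5 / 8) : ℝ)) := by
    rw [Finset.sum_product, Finset.sum_mul, Finset.mul_sum]
    refine Finset.sum_congr rfl fun x _ => ?_
    rw [Finset.sum_product, Finset.mul_sum, Finset.mul_sum]
    refine Finset.sum_congr rfl fun y _ => ?_
    rw [Fintype.sum_bool]
    simp only
    ring
  have h3 := sum_Icc a k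
  have h4 := sum_Icc c k
  have hk0 : (0 : ℝ) < k := by
    have : 0 < k := by omega
    exact_mod_cast this
  have hk1 : (1 : ℝ) ≤ k := by exact_mod_cast hk
  have h5 : ((k : ℝ) + 1) ^ (3 / 8 : ℝ) * ((k : ℝ) + 1) ^ (3 / 8 : ℝ) ≤ 2 * (k : ℝ) ^ (3 / 4 : ℝ) := by
    rw [← Real.rpow_add (by positivity)]
    have e1 : (3 / 8 + 3 / 8 : ℝ) = 3 / 4 := by norm_num
    rw [e1]
    calc ((k : ℝ) + 1) ^ (3 / 4 : ℝ) ≤ (2 * (k : ℝ)) ^ (3 / 4 : ℝ) :=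
          Real.rpow_le_rpow (by positivity) (by linarith) (by norm_num)
      _ = 2 ^ (3 / 4 : ℝ) * (k : ℝ) ^ (3 / 4 : ℝ) := Real.mul_rpow (by norm_num) hk0.le
      _ ≤ 2 ^ (1 : ℝ) * (k : ℝ) ^ (3 / 4 : ℝ) :=
          mul_le_mul_of_nonneg_right
            (Real.rpow_le_rpow_of_exponent_le (by norm_num) (by norm_num)) (by positivity)
      _ = _ := by rw [Real.rpow_one]
  have h6 : 0 ≤ ∑ y ∈ Finset.Icc (c - k) (c + k), ((|y - c| : ℤ) + 1 : ℝ) ^ (-(5 / 8) : ℝ) :=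
    Finset.sum_nonneg fun y _ => hnn y c
  rw [h2] at h1
  refine h1.trans ?_
  have h7 : (∑ x ∈ Finset.Icc (a - k) (a + k), ((|x - a| : ℤ) + 1 : ℝ) ^ (-(5 / 8) : ℝ)) *
        ∑ y ∈ Finset.Icc (c - k) (c + k), ((|y - c| : ℤ) + 1 : ℝ) ^ (-(5 / 8) : ℝ) ≤
      ((16 / 3) * ((k : ℝ) + 1) ^ (3 / 8 : ℝ)) * ((16 / 3) * ((k : ℝ) + 1) ^ (3 / 8 : ℝ)) :=
    mul_le_mul h3 h4 h6 (by positivity)
  have h8 : 0 ≤ (k : ℝ) ^ (3 / 4 : ℝ) := by positivity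
  nlinarith

/-! ### The spectral weight -/

theorem wal_sub (S : Finset Edg) (f h : Finset Edg → ℝ) (T : Finset Edg) :
    wal S (fun F => f F - h F) T = wal S f T - wal S h T := by
  unfold wal
  rw [← Ex_sub]
  refine Ex_congr fun F _ => ?_
  ring

theorem WT_two (S : Finset Edg) (f h : Finset Edg → ℝ) {x : ℝ} (hx : 0 ≤ x) :
    WT S h x ≤ 2 * WT S f x + 2 * WT S (fun F => f F - h F) x := by
  unfold WT
  rw [Finset.mul_sum, Finset.mul_sum, ← Finset.sum_add_distrib]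
  refine Finset.sum_le_sum fun T _ => ?_
  rw [wal_sub]
  have h1 : 0 ≤ x ^ T.card := pow_nonneg hx _
  nlinarith [mul_nonneg (sq_nonneg (2 * wal S f T - wal S h T)) h1,
    mul_nonneg (sq_nonneg (wal S f T)) h1]

theorem WT_le_one (S : Finset Edg) (u : Finset Edg → ℝ) {x : ℝ} (hx : 0 ≤ x) (hx1 : x ≤ 1) :
    WT S u x ≤ WT S u 1 := by
  unfold WT
  refine Finset.sum_le_sum fun T _ => ?_
  rw [one_pow]
  exact mul_le_mul_of_nonneg_left (pow_le_one₀ hx hx1) (sq_nonneg _)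

theorem WT_small (hCOV : S_COV) (S : Finset Edg) (u : Finset Edg → ℝ) {x M : ℝ} (hx : 0 ≤ x)
    (hx1 : x ≤ 1) (hM : 0 ≤ M) (hu : ∀ F, F ⊆ S → |u F| ≤ M) : WT S u x ≤ M ^ 2 := by
  refine (WT_le_one S u hx hx1).trans ?_
  rw [(hCOV S u u 1 zero_le_one le_rfl).2.2.1]
  have h1 : Ex hp S (fun F => (u F) ^ 2) ≤ M ^ 2 := by
    refine Ex_le_of_le (fun e => ?_) fun F hF => ?_
    · unfold hp; norm_num
    · have h2 := hu F hF
      have h3 := abs_le.1 h2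
      nlinarith
  nlinarith [sq_nonneg (Ex hp S u)]

theorem E2_nonneg (hCOV : S_COV) (S : Finset Edg) (u : Finset Edg → ℝ) {x : ℝ} (hx : 0 ≤ x)
    (hx1 : x ≤ 1) : 0 ≤ E2 (fun _ => x) S (fun F F' => u F * u F') := by
  have h1 := (hCOV S u u x hx hx1).2.1
  have h2 : 0 ≤ WT S u x := by
    unfold WT
    exact Finset.sum_nonneg fun T _ => mul_nonneg (sq_nonneg _) (pow_nonneg hx _)
  nlinarith [sq_nonneg (Ex hp S u)]

end Pool.Agent.N3.PN.LB
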