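import Pool.Agent.N3.PN.LBa
import Pool.Agent.H988R6.Up

/-!
Project PN (helper931), part LB, second part: one edge.  Author helper3.
-/

set_option autoImplicit false

namespace Pool.Agent.N3.PN.LB

open H974 H12S H389NS H984N H984P H342P Finset
open Pool.Agent.N116.EW Pool.Agent.N931.PN

theorem KM_mono {D : Dm} {m : ℤ} {F G : Finset Edg} (hFG : F ⊆ G) (h : KM D m F) :
    KM D m G := by
  unfold KM at h ⊢
  exact Cn_mono (Set.inter_subset_inter_left _ (by exact_mod_cast hFG)) h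

theorem dif_hK (D : Dm) (δ : ℝ) (m1 m2 : ℤ) (e : Edg) (F : Finset Edg) :
    dif e (hK D δ m1 m2) F =
      δ * ∑ m ∈ Finset.Ioc m1 m2, dif e (fun G => ind (KM D m G)) F := by
  unfold dif hK
  rw [← mul_sub, ← Finset.sum_sub_distrib]

theorem dif_ind_nonneg (D : Dm) (m : ℤ) (e : Edg) (F : Finset Edg) :
    0 ≤ dif e (fun G => ind (KM D m G)) F := by
  unfold dif
  refine sub_nonneg.2 (ind_mono (KM_mono ?_))
  exact (Finset.erase_subset _ _).trans (Finset.subset_insert _ _)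

theorem dif_hK_nonneg (D : Dm) {δ : ℝ} (hδ : 0 ≤ δ) (m1 m2 : ℤ) (e : Edg) (F : Finset Edg) :
    0 ≤ dif e (hK D δ m1 m2) F := by
  rw [dif_hK]
  exact mul_nonneg hδ (Finset.sum_nonneg fun m _ => dif_ind_nonneg D m e F)

theorem dif_hK_ne {D : Dm} {δ : ℝ} {m1 m2 : ℤ} {e : Edg} {F : Finset Edg}
    (h : dif e (hK D δ m1 m2) F ≠ 0) :
    ∃ m ∈ Finset.Ioc m1 m2, dif e (fun G => ind (KM D m G)) F ≠ 0 := by
  by_contra hcon
  push Not at hcon
  apply h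
  rw [dif_hK, Finset.sum_eq_zero hcon, mul_zero]

theorem dif_dif (e : Edg) (h : Finset Edg → ℝ) (F : Finset Edg) : dif e (dif e h) F = 0 := by
  have h1 : insert e (insert e F) = insert e F := Finset.insert_idem e F
  have h2 : (insert e F).erase e = F.erase e := by
    ext x
    simp only [Finset.mem_insert, Finset.mem_erase]
    tauto
  have h3 : insert e (F.erase e) = insert e F := by
    ext x
    simp only [Finset.mem_insert, Finset.mem_erase]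
    tauto
  have h4 : (F.erase e).erase e = F.erase e := by
    ext x
    simp only [Finset.mem_erase]
    tauto
  unfold dif
  rw [h1, h2, h3, h4]
  ring

theorem sd_ebx {e e' : Edg} {k : ℕ} (h : e' ∈ ebx e k) : sd (src e') (src e) ≤ k := by
  unfold ebx RE at h
  rw [Finset.mem_filter, Finset.mem_product, Finset.mem_product, Finset.mem_Icc,
    Finset.mem_Icc] at h
  obtain ⟨⟨⟨h1, h2⟩, ⟨h3, h4⟩, -⟩, -⟩ := h
  unfold sd src
  refine max_le ?_ ?_
  · rw [abs_le]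
    constructor
    · show -(k : ℤ) ≤ e'.1 - e.1
      linarith
    · show e'.1 - e.1 ≤ (k : ℤ)
      linarith
  · rw [abs_le]
    constructor
    · show -(k : ℤ) ≤ e'.2.1 - e.2.1
      linarith
    · show e'.2.1 - e.2.1 ≤ (k : ℤ)
      linarith

theorem ebx_edges {D : Dm} {e : Edg} {k : ℕ} (h : (k : ℤ) + 4 ≤ D.bd (src e)) :
    ebx e k ⊆ D.edges := by
  unfold Dm.bd src at h
  simp only [le_min_iff] at h
  obtain ⟨⟨h1, h2⟩, h3, h4⟩ := h
  unfold ebx Dm.edges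
  exact RE_subset (by linarith) (by linarith) (by linarith) (by linarith)

theorem okhp : Ok (hp : Edg → ℝ) := fun e => by
  unfold hp
  norm_num

/-- one edge -/
theorem per_edge (hPAR : S_PAR) (hTST : S_TST) (hCOV : S_COV) {C4 : ℝ} (hC4 : 0 < C4)
    (ha4 : ∀ k : ℕ, 1 ≤ k → a4 (1/2) k ≤ C4 * (k:ℝ) ^ (-(5/4) : ℝ)) (D : Dm) (hD : D.Ok)
    {δ ε η : ℝ} (hε : 0 < ε) (hε2 : ε ≤ 1 / 2) (m1 m2 : ℤ)
    (hm1 : max D.t 0 ≤ m1) (hm2 : m2 ≤ D.r) (e : Edg) (he : e ∈ D.edges) {k : ℕ} (hk : 1 ≤ k)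
    (hbd : (k : ℤ) + 4 ≤ D.bd (src e)) (hx : (src e).1 + k + 4 ≤ m1 + 1)
    (hη : 2 * ε * ∑ e' ∈ ebx e k,
      Ex hp D.edges (fun F => |dif e' (dif e (hK D δ m1 m2)) F|) ≤ η) :
    (max 0 (Ex hp D.edges (dif e (hK D δ m1 m2)) - η)) ^ 2 / (C4 * (k:ℝ) ^ (-(5/4) : ℝ)) ≤
      E2 (fun _ => 1 - 2 * ε) D.edges
        (fun F F' => dif e (hK D δ m1 m2) F * dif e (hK D δ m1 m2) F') := by
  have hk0 : (0 : ℝ) < k := by
    have : 0 < k := by omega
    exact_mod_cast this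
  have hP : 0 < C4 * (k:ℝ) ^ (-(5/4) : ℝ) := by positivity
  rcases le_total 0 (Ex hp D.edges (dif e (hK D δ m1 m2)) - η) with h0 | h0
  · rw [max_eq_right h0]
    refine hTST D.edges (ebx e k) (ebx_edges hbd) (dif e (hK D δ m1 m2))
      (fun F => A4e k e (↑F : Set Edg)) ?_ ?_ (1 - 2 * ε) (C4 * (k:ℝ) ^ (-(5/4) : ℝ)) _
      (by linarith) (by linarith) hP ?_ h0 ?_
    · intro F _
      apply A4e_local
      rw [Finset.coe_inter, Set.inter_assoc, Set.inter_self]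
    · intro F hF hne
      obtain ⟨m, hm, hmne⟩ := dif_hK_ne hne
      rw [Finset.mem_Ioc] at hm
      exact (hPAR D hD m (by omega) (by omega) F hF e he hmne k hk hbd (by omega)).1
    · exact (pr_A4e (q := 1 / 2) (by norm_num) (by norm_num) (ebx_edges hbd)).trans (ha4 k hk)
    · have h1 : (1 - (1 - 2 * ε)) = 2 * ε := by ring
      rw [h1]
      linarith
  · rw [max_eq_left h0]
    have h1 : (0 : ℝ) ^ 2 / (C4 * (k:ℝ) ^ (-(5/4) : ℝ)) = 0 := by
      rw [zero_pow (by norm_num), zero_div]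
    rw [h1]
    exact E2_nonneg hCOV D.edges _ (by linarith) (by linarith)

/-- Cauchy-Schwarz -/
theorem cs {ι : Type} (Q : Finset ι) (b : ι → ℝ) {s N : ℝ} (hs : 0 ≤ s) (h : s ≤ ∑ e ∈ Q, b e)
    (hN : (Q.card : ℝ) ≤ N) (hN0 : 0 < N) : s ^ 2 / N ≤ ∑ e ∈ Q, (b e) ^ 2 := by
  rw [div_le_iff₀ hN0]
  have h1 : (∑ e ∈ Q, b e) ^ 2 ≤ Q.card * ∑ e ∈ Q, (b e) ^ 2 := sq_sum_le_card_mul_sum_sq
  have h2 : 0 ≤ ∑ e ∈ Q, (b e) ^ 2 := Finset.sum_nonneg fun e _ => sq_nonneg _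
  have h3 : s ^ 2 ≤ (∑ e ∈ Q, b e) ^ 2 := pow_le_pow_left₀ hs h 2
  nlinarith

end Pool.Agent.N3.PN.LB
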